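import Pool.Agent.Run7.h275.RB10
import Pool.Agent.Run7.h637.RB.GR
import Pool.Agent.N98.SS.Serre
import Pool.Agent.W418.LU2.Ind

/-!
# Piece NCO: normal crossings spread out
-/

set_option autoImplicit false

namespace Pool.Agent.Run7.h781.RB

open IsLocalRing Pool.Agent.W418.LU2 Pool.Agent.Run7.h275.RL Pool.Agent.Run7.h275.RB
  Pool.Agent.Run7.h637.RB

section general

/-- Clearing of denominators. -/
theorem clear {B L : Type} [CommRing B] [CommRing L] [Algebra B L] (M : Submonoid B)
    [IsLocalization M L] (I N : Ideal B) (hI : I.FG)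
    (h : I.map (algebraMap B L) ≤ N.map (algebraMap B L)) :
    ∃ t ∈ M, ∀ p ∈ I, t * p ∈ N := by
  classical
  have hex : ∀ p ∈ I, ∃ u ∈ M, u * p ∈ N := by
    intro p hp
    rw [← IsLocalization.algebraMap_mem_map_algebraMap_iff M L]
    exact h (Ideal.mem_map_of_mem _ hp)
  obtain ⟨T, hT⟩ := hI
  have hTp : ∀ p : T, (p : B) ∈ I := fun p => by
    have h : (p : B) ∈ Ideal.span (T : Set B) := Ideal.subset_span p.2
    rwa [hT] at h
  choose u hu hup using fun p : T => hex p (hTp p)
  refine ⟨∏ p, u p, M.prod_mem (t := Finset.univ) fun p _ => hu p, ?_⟩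
  intro p hp
  have h1 : p ∈ Ideal.span (T : Set B) := by rwa [hT]
  refine Submodule.span_induction (p := fun p _ => (∏ p, u p) * p ∈ N) ?_ ?_ ?_ ?_ h1
  · intro x hx
    rw [← Finset.mul_prod_erase _ _ (Finset.mem_univ (⟨x, hx⟩ : T))]
    have h3 : (u ⟨x, hx⟩ * ∏ p ∈ Finset.univ.erase ⟨x, hx⟩, u p) * x =
        (∏ p ∈ Finset.univ.erase ⟨x, hx⟩, u p) * (u ⟨x, hx⟩ * x) := by ring
    rw [h3]
    exact Ideal.mul_mem_left _ _ (hup ⟨x, hx⟩)
  · rw [mul_zero]
    exact Ideal.zero_mem _
  · intro x y _ _ hx hy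
    rw [mul_add]
    exact Ideal.add_mem _ hx hy
  · intro a x _ hx
    rw [smul_eq_mul, mul_left_comm]
    exact Ideal.mul_mem_left _ _ hx

/-- Generators multiplied by units. -/
theorem span_mul_unit {Q : Type} [CommRing Q] {ι : Type} {x y u : ι → Q} (hu : ∀ i, IsUnit (u i))
    (hy : ∀ i, x i * u i = y i) : Ideal.span (Set.range y) = Ideal.span (Set.range x) := by
  apply le_antisymm
  · rw [Ideal.span_le]
    rintro _ ⟨i, rfl⟩
    rw [← hy i]
    exact Ideal.mul_mem_right _ _ (Ideal.subset_span ⟨i, rfl⟩)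
  · rw [Ideal.span_le]
    rintro _ ⟨i, rfl⟩
    have h1 : x i * u i ∈ Ideal.span (Set.range y) := by
      rw [hy i]
      exact Ideal.subset_span ⟨i, rfl⟩
    exact (Ideal.mul_unit_mem_iff_mem _ (hu i)).1 h1

section reg

variable {Q : Type} [CommRing Q] [IsRegularLocalRing Q] {κ : Type} [Fintype κ] {e : κ → Q}

lemma span_prime' (he : Ind e) (S : Set κ) : (Ideal.span (e '' S)).IsPrime := by
  classical
  have h1 := (he.comp (fun l : S => (l : κ)) Subtype.val_injective).regular
  have h2 : Set.range (e ∘ fun l : S => (l : κ)) = e '' S := by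
    ext z
    constructor
    · rintro ⟨l, rfl⟩
      exact ⟨l, l.2, rfl⟩
    · rintro ⟨l, hl, rfl⟩
      exact ⟨⟨l, hl⟩, rfl⟩
  rw [h2] at h1
  have h3 : IsDomain (Q ⧸ Ideal.span (e '' S)) := Pool.Agent.H379R3.isDomain _
  exact (Ideal.Quotient.isDomain_iff_prime _).1 h3

lemma not_mem_span' (he : Ind e) (S : Set κ) (k : κ) (hk : k ∉ S) :
    e k ∉ Ideal.span (e '' S) := by
  classical
  intro h
  rw [Ideal.span, Fintype.mem_span_image_iff_exists_fun] at h
  obtain ⟨c, hc⟩ := h
  let f : Option S → κ := fun o => o.elim k fun l => l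
  have hf : Function.Injective f := by
    rintro (_ | a) (_ | b) hab
    · rfl
    · have h1 : (b : κ) = k := hab.symm
      exact absurd (h1 ▸ b.2) hk
    · have h1 : (a : κ) = k := hab
      exact absurd (h1 ▸ a.2) hk
    · exact congrArg some (Subtype.ext hab)
  have h1 := (he.comp f hf).2 (fun o => o.elim (-1) c) (by
    rw [Fintype.sum_option]
    simp only [Option.elim, Function.comp, f]
    simp only [smul_eq_mul] at hc
    rw [hc, neg_one_mul, neg_add_cancel]
    exact Ideal.zero_mem _) none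
  simp only [Option.elim] at h1
  exact (Ideal.ne_top_iff_one _).1 (maximalIdeal.isMaximal _).ne_top ((Ideal.neg_mem_iff _).1 h1)

/-- The height of the ideal generated by a part of a regular system of parameters. -/
theorem card_le_height (he : Ind e) :
    ((Fintype.card κ : ℕ) : ℕ∞) ≤ (Ideal.span (Set.range e)).height := by
  classical
  have h : ∀ S : Finset κ, ((S.card : ℕ) : ℕ∞) ≤ (Ideal.span (e '' (S : Set κ))).height := by
    intro S
    induction S using Finset.induction_on with
    | empty => simp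
    | insert k S hk ih =>
      have hp := span_prime' he (S : Set κ)
      have hp' := span_prime' he ((insert k S : Finset κ) : Set κ)
      have hlt : Ideal.span (e '' (S : Set κ)) <
          Ideal.span (e '' ((insert k S : Finset κ) : Set κ)) := by
        refine lt_of_le_of_ne (Ideal.span_mono (Set.image_mono (by simp))) ?_
        intro heq
        apply not_mem_span' he (S : Set κ) k (by simpa using hk)
        rw [heq]
        exact Ideal.subset_span ⟨k, by simp, rfl⟩
      have h1 := Ideal.height_add_one_le_of_lt_of_isPrime hlt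
      have h2 : (((insert k S).card : ℕ) : ℕ∞) = ((S.card : ℕ) : ℕ∞) + 1 := by
        rw [Finset.card_insert_of_notMem hk]
        push_cast
        rfl
      rw [h2]
      exact (add_le_add ih le_rfl).trans h1
  have h1 := h Finset.univ
  rw [Finset.coe_univ, Set.image_univ, Finset.card_univ] at h1
  exact h1

end reg

/-- A system of parameters from that of the quotient. -/
theorem sys_of_quot {Q : Type} [CommRing Q] [IsLocalRing Q] [IsNoetherianRing Q] (P : Ideal Q)
    [P.IsPrime] (hQ : IsRegularLocalRing (Q ⧸ P)) {ι : Type} [Fintype ι] (z : ι → Q)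
    (hz : Ideal.span (Set.range z) = P)
    (hc : ((Fintype.card ι : ℕ) : ℕ∞) ≤ P.height) :
    IsRegularLocalRing Q ∧ ∃ (n : ℕ) (h : Fin n → Q),
      Ideal.span (Set.range (Sum.elim z h)) = maximalIdeal Q ∧
      ringKrullDim Q = ((Fintype.card (ι ⊕ Fin n) : ℕ) : WithBot ℕ∞) := by
  classical
  obtain ⟨H, hcard, hspan⟩ :=
    (IsNoetherian.noetherian (maximalIdeal (Q ⧸ P))).exists_span_finset_card_eq_spanFinrank
  choose l hl using fun x : Q ⧸ P => Ideal.Quotient.mk_surjective x
  let n := H.card
  let h : Fin n → Q := fun i => l (H.equivFin.symm i)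
  have h0 : Ideal.Quotient.mk P '' Set.range h = (H : Set (Q ⧸ P)) := by
    ext y
    constructor
    · rintro ⟨_, ⟨i, rfl⟩, rfl⟩
      change Ideal.Quotient.mk P (l (H.equivFin.symm i)) ∈ _
      rw [hl]
      exact (H.equivFin.symm i).2
    · intro hy
      refine ⟨_, ⟨H.equivFin ⟨y, hy⟩, rfl⟩, ?_⟩
      change Ideal.Quotient.mk P (l (H.equivFin.symm (H.equivFin ⟨y, hy⟩))) = y
      rw [hl, Equiv.symm_apply_apply]
  have h1 : (Ideal.span (Set.range h)).map (Ideal.Quotient.mk P) = maximalIdeal (Q ⧸ P) := by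
    rw [Ideal.map_span, h0, ← hspan]
  have h2 : Ideal.span (Set.range (Sum.elim z h)) = maximalIdeal Q := by
    have h3 : (maximalIdeal (Q ⧸ P)).comap (Ideal.Quotient.mk P) = maximalIdeal Q := by
      have : IsLocalHom (Ideal.Quotient.mk P) :=
        .of_surjective _ Ideal.Quotient.mk_surjective
      exact IsLocalRing.maximalIdeal_comap _
    rw [← h3, ← h1, Ideal.comap_map_of_surjective _ Ideal.Quotient.mk_surjective,
      ← RingHom.ker_eq_comap_bot, Ideal.mk_ker, Set.Sum.elim_range, Ideal.span_union, hz, sup_comm]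
  have h4 : (maximalIdeal Q).spanFinrank ≤ Fintype.card (ι ⊕ Fin n) := by
    rw [← h2]
    refine (Submodule.spanFinrank_span_le_ncard_of_finite (Set.finite_range _)).trans ?_
    rw [← Set.image_univ]
    refine (Set.ncard_image_le (Set.finite_univ)).trans ?_
    rw [Set.ncard_univ, Nat.card_eq_fintype_card]
  have h5 : ((n : ℕ) : WithBot ℕ∞) = ringKrullDim (Q ⧸ P) := by
    change ((H.card : ℕ) : WithBot ℕ∞) = _
    rw [hcard]
    exact hQ.spanFinrank_maximalIdeal
  have h6 : ((Fintype.card (ι ⊕ Fin n) : ℕ) : WithBot ℕ∞) ≤ ringKrullDim Q := by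
    rw [Fintype.card_sum, Fintype.card_fin]
    calc (((Fintype.card ι + n : ℕ) : ℕ) : WithBot ℕ∞)
        = ((Fintype.card ι : ℕ) : WithBot ℕ∞) + ((n : ℕ) : WithBot ℕ∞) := by push_cast; rfl
      _ ≤ ((P.height : ℕ∞) : WithBot ℕ∞) + ringKrullDim (Q ⧸ P) := by
          rw [h5]; exact add_le_add (by exact_mod_cast hc) le_rfl
      _ ≤ ringKrullDim Q := height_add_le P
  have hreg : IsRegularLocalRing Q := by
    apply IsRegularLocalRing.of_spanFinrank_maximalIdeal_le
    refine le_trans ?_ h6
    exact_mod_cast h4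
  refine ⟨hreg, n, h, h2, le_antisymm ?_ h6⟩
  rw [← hreg.spanFinrank_maximalIdeal]
  exact_mod_cast h4

/-- A part of a regular system of parameters contained in a prime ideal remains so in the
localisation. -/
theorem ind_loc {Q L : Type} [CommRing Q] [IsRegularLocalRing Q] [CommRing L] [Algebra Q L]
    (P : Ideal Q) [P.IsPrime] [IsLocalization.AtPrime L P] [IsLocalRing L] {κ : Type} [Fintype κ]
    {z : κ → Q} (hz : Ind z) (hzP : ∀ i, z i ∈ P) :
    IsRegularLocalRing L ∧ Ind (fun i => algebraMap Q L (z i)) := by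
  classical
  let N : Ideal Q := Ideal.span (Set.range z)
  have hNP : N ≤ P := by
    rw [Ideal.span_le]
    rintro _ ⟨i, rfl⟩
    exact hzP i
  have hNprime : N.IsPrime := by
    have h1 := span_prime' hz Set.univ
    rwa [Set.image_univ] at h1
  have hR1 : IsRegularLocalRing (Q ⧸ N) := hz.regular
  have hker : RingHom.ker (Ideal.Quotient.mk N) ≤ P := by
    rw [Ideal.mk_ker]
    exact hNP
  have hP' : (P.map (Ideal.Quotient.mk N)).IsPrime :=
    Ideal.map_isPrime_of_surjective Ideal.Quotient.mk_surjective hker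
  have hS : IsRegularLocalRing (Localization.AtPrime (P.map (Ideal.Quotient.mk N))) :=
    Pool.Agent.N98.SS.regular_localization _
  have hloc := quot_loc (Q := L) P N hNP
  have hL1 : IsRegularLocalRing (L ⧸ N.map (algebraMap Q L)) := reg_of_loc _ hS
  have hnoe : IsNoetherianRing L := IsLocalization.isNoetherianRing P.primeCompl _ inferInstance
  have hdis : Disjoint (P.primeCompl : Set Q) (N : Set Q) := by
    rw [Set.disjoint_left]
    intro b hb hb'
    exact hb (hNP hb')
  have hNL : (N.map (algebraMap Q L)).IsPrime :=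
    IsLocalization.isPrime_of_isPrime_disjoint P.primeCompl _ N hNprime hdis
  have hgen : Ideal.span (Set.range fun i => algebraMap Q L (z i)) = N.map (algebraMap Q L) := by
    rw [Ideal.map_span, ← Set.range_comp]
    rfl
  have hht : ((Fintype.card κ : ℕ) : ℕ∞) ≤ (N.map (algebraMap Q L)).height := by
    rw [IsLocalization.height_map_of_disjoint P.primeCompl N hdis]
    exact card_le_height hz
  obtain ⟨hreg, n, h, h1, h2⟩ := sys_of_quot (N.map (algebraMap Q L)) hL1 _ hgen hht
  refine ⟨hreg, ?_⟩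
  have h3 : Ind (Sum.elim (fun i => algebraMap Q L (z i)) h) := ind_of_span h1 h2.ge
  exact h3.comp Sum.inl Sum.inl_injective

end general

theorem NCO : Pool.Agent.Run7.h275.RB.S_NCO := by
  classical
  intro F _ B hBn I 𝔭 h𝔭 V hBV hV hNC
  obtain ⟨hQreg, r, x, α, hx, hdim, hI⟩ := hNC
  have hcp := isPrime_cen hBV
  let _ := algLo V.toSubring B
  have hloc := loc_lo hBV
  have hle𝔭 : 𝔭 ≤ cen hBV := fun b hb => hV b hb
  let a : Fin r → B := fun i => (IsLocalization.sec (cen hBV).primeCompl (x i)).1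
  let b : Fin r → (cen hBV).primeCompl := fun i => (IsLocalization.sec (cen hBV).primeCompl (x i)).2
  have hab : ∀ i, x i * algebraMap B (lo V.toSubring B) (b i) =
      algebraMap B (lo V.toSubring B) (a i) :=
    fun i => IsLocalization.sec_spec (cen hBV).primeCompl (x i)
  have hbu : ∀ i, IsUnit (algebraMap B (lo V.toSubring B) (b i)) := fun i =>
    IsLocalization.map_units (lo V.toSubring B) (b i)
  have ha : Ideal.span (Set.range fun i => algebraMap B (lo V.toSubring B) (a i)) =
      maximalIdeal (lo V.toSubring B) := (span_mul_unit hbu hab).trans hx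
  let m : B := ∏ i, a i ^ α i
  have hm : algebraMap B (lo V.toSubring B) m = (∏ i, x i ^ α i) *
      ∏ i, algebraMap B (lo V.toSubring B) (b i) ^ α i := by
    rw [map_prod, ← Finset.prod_mul_distrib]
    refine Finset.prod_congr rfl fun i _ => ?_
    rw [map_pow, ← hab i, mul_pow]
  have hmu : IsUnit (∏ i, algebraMap B (lo V.toSubring B) (b i) ^ α i) := by
    rw [← Finset.prod_congr rfl fun i _ => map_pow (algebraMap B (lo V.toSubring B)) _ _,
      ← map_prod]
    refine IsLocalization.map_units (lo V.toSubring B)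
      (⟨_, (cen hBV).primeCompl.prod_mem (t := Finset.univ) fun i _ =>
        (cen hBV).primeCompl.pow_mem (b i).2 (α i)⟩ : (cen hBV).primeCompl)
  have hI' : I.map (algebraMap B (lo V.toSubring B)) =
      (Ideal.span {m}).map (algebraMap B (lo V.toSubring B)) := by
    rw [Ideal.map_span, Set.image_singleton, hm, Ideal.span_singleton_mul_right_unit hmu]
    exact hI
  obtain ⟨t₂, ht₂, h2⟩ := clear (L := lo V.toSubring B) (cen hBV).primeCompl I (Ideal.span {m})
    (IsNoetherian.noetherian I) hI'.le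
  obtain ⟨t₃, ht₃, h3⟩ := clear (L := lo V.toSubring B) (cen hBV).primeCompl (Ideal.span {m}) I
    (IsNoetherian.noetherian _) hI'.ge
  -- the localisation at `𝔭`
  have hdis : Disjoint ((cen hBV).primeCompl : Set B) (𝔭 : Set B) := by
    rw [Set.disjoint_left]
    intro b hb hb'
    exact hb (hle𝔭 hb')
  let P : Ideal (lo V.toSubring B) := 𝔭.map (algebraMap B (lo V.toSubring B))
  have hP : P.IsPrime :=
    IsLocalization.isPrime_of_isPrime_disjoint (cen hBV).primeCompl _ 𝔭 h𝔭 hdis
  have hcomap : P.comap (algebraMap B (lo V.toSubring B)) = 𝔭 :=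
    IsLocalization.under_map_of_isPrime_disjoint (cen hBV).primeCompl (lo V.toSubring B) h𝔭 hdis
  let L := Localization.AtPrime P
  have hL : IsLocalization.AtPrime L 𝔭 := by
    have h2 : IsLocalization.AtPrime L (P.comap (algebraMap B (lo V.toSubring B))) :=
      IsLocalization.isLocalization_isLocalization_atPrime_isLocalization (cen hBV).primeCompl L P
    convert h2 using 1
    exact hcomap.symm
  let J := {i : Fin r // a i ∈ 𝔭}
  have hind : Ind (fun i : Fin r => algebraMap B (lo V.toSubring B) (a i)) := by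
    refine ind_of_span ha ?_
    rw [hdim, Fintype.card_fin]
  have hindJ : Ind (fun i : J => algebraMap B (lo V.toSubring B) (a i)) :=
    hind.comp (Subtype.val : J → Fin r) Subtype.val_injective
  obtain ⟨hLreg, hLind⟩ := ind_loc (L := L) P hindJ fun i => Ideal.mem_map_of_mem _ i.2
  obtain ⟨m', w, hw, hLdim⟩ := hLind.extend
  let g : Fin m' → B := fun j => (IsLocalization.sec 𝔭.primeCompl (w j)).1
  let s : Fin m' → 𝔭.primeCompl := fun j => (IsLocalization.sec 𝔭.primeCompl (w j)).2
  have hgs : ∀ j, w j * algebraMap B L (s j) = algebraMap B L (g j) :=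
    fun j => IsLocalization.sec_spec 𝔭.primeCompl (w j)
  let zB : J ⊕ Fin m' → B := Sum.elim (fun i => a i) g
  have hzL : Ideal.span (Set.range fun k => algebraMap B L (zB k)) = maximalIdeal L := by
    refine Eq.trans ?_ hw
    refine span_mul_unit (u := Sum.elim (fun _ => 1) fun j => algebraMap B L (s j)) ?_ ?_
    · rintro (i | j)
      · exact isUnit_one
      · exact IsLocalization.map_units L (s j)
    · rintro (i | j)
      · exact mul_one _
      · exact hgs j
  have hz𝔭 : ∀ k, zB k ∈ 𝔭 := by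
    intro k
    rw [← IsLocalization.AtPrime.to_map_mem_maximal_iff L 𝔭, ← hzL]
    exact Ideal.subset_span ⟨k, rfl⟩
  obtain ⟨t₁, ht₁, h1⟩ := clear (L := L) 𝔭.primeCompl 𝔭 (Ideal.span (Set.range zB))
    (IsNoetherian.noetherian _) (by
      rw [Ideal.map_span, ← Set.range_comp, IsLocalization.AtPrime.map_eq_maximalIdeal 𝔭 L]
      exact hzL.ge)
  have hht : ((Fintype.card (J ⊕ Fin m') : ℕ) : ℕ∞) = 𝔭.height := by
    have h4 := IsLocalization.AtPrime.ringKrullDim_eq_height 𝔭 L
    rw [hLdim] at h4
    rw [Fintype.card_sum, Fintype.card_fin]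
    exact_mod_cast h4
  let u : B := ∏ i ∈ Finset.univ.filter (fun i => a i ∉ 𝔭), a i
  have hu : u ∉ 𝔭 := fun h4 => by
    obtain ⟨i, hi, h5⟩ := (Ideal.IsPrime.prod_mem_iff).1 h4
    exact (Finset.mem_filter.1 hi).2 h5
  refine ⟨t₁ * t₂ * t₃ * u, ?_, ?_⟩
  · intro h4
    rcases h𝔭.mem_or_mem h4 with h5 | h5
    · rcases h𝔭.mem_or_mem h5 with h6 | h6
      · rcases h𝔭.mem_or_mem h6 with h7 | h7
        · exact ht₁ h7
        · exact ht₂ (hle𝔭 h7)
      · exact ht₃ (hle𝔭 h6)
    · exact hu h5
  intro T hBT hT htT hRQ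
  have hcpT := isPrime_cen hBT
  let _ := algLo T.toSubring B
  have hlocT := loc_lo hBT
  have hlr : IsLocalRing (lo T.toSubring B) := isLocalRing_lo (loc_V T) hBT
  have hnoe : IsNoetherianRing (lo T.toSubring B) :=
    IsLocalization.isNoetherianRing (cen hBT).primeCompl _ hBn
  have hdisT : Disjoint ((cen hBT).primeCompl : Set B) (𝔭 : Set B) := by
    rw [Set.disjoint_left]
    intro b hb hb'
    exact hb (hT b hb')
  have hPT : (𝔭.map (algebraMap B (lo T.toSubring B))).IsPrime :=
    IsLocalization.isPrime_of_isPrime_disjoint (cen hBT).primeCompl _ 𝔭 h𝔭 hdisT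
  have htu : ∀ c, c ∣ t₁ * t₂ * t₃ * u → IsUnit (algebraMap B (lo T.toSubring B) c) := by
    intro c hc
    refine isUnit_of_dvd_unit (map_dvd (algebraMap B (lo T.toSubring B)) hc) ?_
    exact IsLocalization.map_units (lo T.toSubring B)
      (⟨t₁ * t₂ * t₃ * u, htT⟩ : (cen hBT).primeCompl)
  have hu₁ := htu t₁ (Dvd.intro (t₂ * t₃ * u) (by ring))
  have hu₂ := htu t₂ (Dvd.intro (t₁ * t₃ * u) (by ring))
  have hu₃ := htu t₃ (Dvd.intro (t₁ * t₂ * u) (by ring))
  have hgen : Ideal.span (Set.range fun k => algebraMap B (lo T.toSubring B) (zB k)) =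
      𝔭.map (algebraMap B (lo T.toSubring B)) := by
    have h4 : Ideal.span (Set.range fun k => algebraMap B (lo T.toSubring B) (zB k)) =
        (Ideal.span (Set.range zB)).map (algebraMap B (lo T.toSubring B)) := by
      rw [Ideal.map_span, ← Set.range_comp]
      rfl
    rw [h4]
    apply le_antisymm
    · refine Ideal.map_mono (Ideal.span_le.2 ?_)
      rintro _ ⟨k, rfl⟩
      exact hz𝔭 k
    · rw [Ideal.map_le_iff_le_comap]
      intro p hp
      have h5 := Ideal.mem_map_of_mem (algebraMap B (lo T.toSubring B)) (h1 p hp)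
      rw [map_mul] at h5
      exact (Ideal.unit_mul_mem_iff_mem _ hu₁).1 h5
  obtain ⟨hTreg, n, h, hspan, hdimT⟩ := sys_of_quot (𝔭.map (algebraMap B (lo T.toSubring B))) hRQ
    (fun k => algebraMap B (lo T.toSubring B) (zB k)) hgen (by
      rw [IsLocalization.height_map_of_disjoint (cen hBT).primeCompl 𝔭 hdisT]
      exact hht.le)
  let X : (J ⊕ Fin m') ⊕ Fin n → lo T.toSubring B :=
    Sum.elim (fun k => algebraMap B (lo T.toSubring B) (zB k)) h
  let η : (J ⊕ Fin m') ⊕ Fin n → ℕ := Sum.elim (Sum.elim (fun i : J => α i) fun _ => 0) fun _ => 0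
  let e := Fintype.equivFin ((J ⊕ Fin m') ⊕ Fin n)
  refine ⟨hTreg, Fintype.card ((J ⊕ Fin m') ⊕ Fin n), fun i => X (e.symm i),
    fun i => η (e.symm i), ?_, hdimT, ?_⟩
  · refine Eq.trans ?_ hspan
    congr 1
    exact e.symm.surjective.range_comp X
  · have h4 : ∏ i, X (e.symm i) ^ η (e.symm i) =
        ∏ i : J, algebraMap B (lo T.toSubring B) (a i) ^ α i := by
      rw [e.symm.prod_comp (fun i => X i ^ η i), Fintype.prod_sum_type, Fintype.prod_sum_type]
      have h5 : ∏ i : Fin n, X (Sum.inr i) ^ η (Sum.inr i) = 1 :=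
        Finset.prod_eq_one fun i _ => pow_zero _
      have h6 : ∏ i : Fin m', X (Sum.inl (Sum.inr i)) ^ η (Sum.inl (Sum.inr i)) = 1 :=
        Finset.prod_eq_one fun i _ => pow_zero _
      rw [h5, h6, mul_one, mul_one]
      rfl
    have h5 : m = (∏ i ∈ Finset.univ.filter (fun i => a i ∉ 𝔭), a i ^ α i) *
        ∏ i : J, a i ^ α i := by
      rw [mul_comm]
      change ∏ i, a i ^ α i = _
      rw [← Finset.prod_filter_mul_prod_filter_not Finset.univ (fun i => a i ∈ 𝔭)]
      congr 1
      exact Finset.prod_subtype _ (fun i => by simp) (fun i => a i ^ α i)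
    have h6 : IsUnit (algebraMap B (lo T.toSubring B)
        (∏ i ∈ Finset.univ.filter (fun i => a i ∉ 𝔭), a i ^ α i)) := by
      rw [map_prod]
      refine (Finset.univ.filter (fun i => a i ∉ 𝔭)).prod_induction _ IsUnit
        (fun _ _ => IsUnit.mul) isUnit_one ?_
      intro i hi
      rw [map_pow]
      exact (htu (a i) ((Finset.dvd_prod_of_mem a hi).trans (Dvd.intro_left _ rfl))).pow _
    have h7 : Ideal.span {algebraMap B (lo T.toSubring B) m} =
        Ideal.span {∏ i, X (e.symm i) ^ η (e.symm i)} := by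
      rw [h4, h5, map_mul, mul_comm, Ideal.span_singleton_mul_right_unit h6, map_prod]
      simp only [map_pow]
    rw [← h7]
    change I.map (algebraMap B (lo T.toSubring B)) = _
    apply le_antisymm
    · rw [Ideal.map_le_iff_le_comap]
      intro p hp
      have h8 := Ideal.mem_map_of_mem (algebraMap B (lo T.toSubring B)) (h2 p hp)
      rw [map_mul, Ideal.map_span, Set.image_singleton] at h8
      exact (Ideal.unit_mul_mem_iff_mem _ hu₂).1 h8
    · rw [Ideal.span_singleton_le_iff_mem]
      have h8 := Ideal.mem_map_of_mem (algebraMap B (lo T.toSubring B))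
        (h3 m (Ideal.mem_span_singleton_self m))
      rw [map_mul] at h8
      exact (Ideal.unit_mul_mem_iff_mem _ hu₃).1 h8

end Pool.Agent.Run7.h781.RB
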